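import Mathlib
import Pool.Agent.H317.GH.Stm

/-!
# Project GH (helper317), part BIJ, by helper764: homomorphisms to finite groups extend uniquely
-/

set_option autoImplicit false

namespace Pool.Agent.H764.GH

open Matrix Pool.Agent.H317.GR Pool.Agent.H317.GH

theorem finite_hom (G Q : Type) [Group G] [Group.FG G] [Group Q] [Finite Q] : Finite (G →* Q) := by
  obtain ⟨S, hS⟩ := Group.FG.out (G := G)
  refine Finite.of_injective (fun (φ : G →* Q) (s : S) => φ s) ?_
  intro φ ψ h
  exact MonoidHom.eq_of_eqOn_dense hS (fun s hs => congrFun h ⟨s, hs⟩)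

/-- two homomorphisms with the same kernel, the first onto a finite group `H`: the second is onto -/
theorem surj_of_ker {G H : Type} [Group G] [Group H] [Finite H] (a b : G →* H)
    (ha : Function.Surjective a) (hk : ∀ g, b g = 1 ↔ a g = 1) : Function.Surjective b := by
  have hker : b.ker = a.ker := by
    ext g
    rw [MonoidHom.mem_ker, MonoidHom.mem_ker]
    exact hk g
  have h1 : Nat.card b.range = Nat.card H := by
    have e1 := Nat.card_congr (QuotientGroup.quotientKerEquivRange b).toEquiv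
    have e2 := Nat.card_congr (QuotientGroup.quotientKerEquivOfSurjective a ha).toEquiv
    rw [← e1, ← e2, hker]
  rw [← MonoidHom.range_eq_top]
  exact Subgroup.eq_top_of_card_eq _ h1

theorem QLE.trans {A B C : Type} [Group A] [Group B] [Group C] (h1 : QLE A B) (h2 : QLE B C) :
    QLE A C := fun Q _ _ h => h2 Q (h1 Q h)

/-- **BIJ** -/
theorem bij : S_HOM → S_FAC → S_BIJ := by
  intro hHOM hFAC n hn Λ₁ Λ₂ _ _ _ _ h11 h12 h21 h22 f₁ f₂ hf₁ hf₂ φ hφ Q _ _
  have hfin : Finite (Λ₁ →* Q) := finite_hom Λ₁ Q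
  have hinj : Function.Injective (fun v : Λ₂ →* Q => v.comp φ) := by
    obtain ⟨M, hM, hfac⟩ := hFAC n hn Λ₂ h21 Q
    haveI : NeZero M := ⟨hM.ne'⟩
    have hsurj : Function.Surjective ((f₂ M).comp φ) :=
      surj_of_ker (f₁ M) _ (hf₁ M hM) (fun g => hφ M hM g)
    intro v v' hv
    refine MonoidHom.ext fun y => ?_
    obtain ⟨x, hx⟩ := hsurj (f₂ M y)
    rw [MonoidHom.comp_apply] at hx
    have hmem : (φ x)⁻¹ * y ∈ (f₂ M).ker := by
      rw [MonoidHom.mem_ker, map_mul, map_inv, hx, inv_mul_cancel]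
    have key : ∀ w : Λ₂ →* Q, w y = w (φ x) := by
      intro w
      have h1 := hfac (f₂ M) (hf₂ M hM) w hmem
      rw [MonoidHom.mem_ker, map_mul, map_inv, inv_mul_eq_one] at h1
      exact h1.symm
    rw [key v, key v']
    exact DFunLike.congr_fun hv x
  exact hinj.bijective_of_nat_card_le (hHOM Λ₁ Λ₂ (QLE.trans h11 h22) Q)

end Pool.Agent.H764.GH
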